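import Pool.Agent.H17.NB3

set_option autoImplicit false

namespace Pool.Agent.Results.MP_b5bb8b_co.Unbounded

open Matrix

/-- The nonbacktracking matrix: rows and columns are the directed edges, and the entry at
`(u,v),(x,y)` is `1` if `v = x` and `u ≠ y`, else `0`. -/
def B {V : Type} [DecidableEq V] (G : SimpleGraph V) : Matrix G.Dart G.Dart ℂ :=
  Matrix.of fun d e => if d.snd = e.fst ∧ d.fst ≠ e.snd then 1 else 0

/-- For every `m` there is a finite simple graph without leaves whose nonbacktracking matrix has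
a generalized eigenvector of rank `m + 1`, i.e. a Jordan block of size at least `m + 1`. -/
theorem result (m : ℕ) : ∃ (V : Type) (_ : Fintype V) (_ : DecidableEq V) (G : SimpleGraph V)
    (_ : DecidableRel G.Adj), (∀ v, G.degree v ≠ 1) ∧ ∃ (l : ℂ) (y : G.Dart → ℂ),
      ((B G - l • (1 : Matrix G.Dart G.Dart ℂ)) ^ (m + 1)) *ᵥ y = 0 ∧
      ((B G - l • (1 : Matrix G.Dart G.Dart ℂ)) ^ m) *ᵥ y ≠ 0 :=
  Pool.Agent.H17.NB.main m

end Pool.Agent.Results.MP_b5bb8b_co.Unbounded
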